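import Pool.Agent.Lib.MP_28303a_al.NT.A.Iface
import Mathlib.Algebra.Homology.DerivedCategory.TStructure
import Mathlib.Algebra.Homology.DerivedCategory.FullyFaithful
import Mathlib.Algebra.Homology.DerivedCategory.KProjective

/-! # The map to the top homology -/

set_option autoImplicit false
set_option linter.unusedSectionVars false
set_option linter.unusedVariables false

namespace Pool.Agent.NegK.NT.H1

universe w v u

open CategoryTheory Limits

section

variable {C : Type u} [Category.{v} C] [Abelian C] [HasDerivedCategory.{w} C]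

open DerivedCategory

/-- Maps of objects concentrated in one degree. -/
theorem lift_conc (b : ℤ) (A B : DerivedCategory C) [A.IsGE b] [A.IsLE b] [B.IsGE b] [B.IsLE b]
    (φ : (homologyFunctor C b).obj A ⟶ (homologyFunctor C b).obj B) :
    ∃ f : A ⟶ B, (homologyFunctor C b).map f = φ := by
  obtain ⟨Y₁, ⟨e₁⟩⟩ := exists_iso_singleFunctor_obj_of_isGE_of_isLE A b
  obtain ⟨Y₂, ⟨e₂⟩⟩ := exists_iso_singleFunctor_obj_of_isGE_of_isLE B b
  let ψ : Y₁ ⟶ Y₂ := (singleFunctorCompHomologyFunctorIso C b).inv.app Y₁ ≫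
    (homologyFunctor C b).map e₁.inv ≫ φ ≫ (homologyFunctor C b).map e₂.hom ≫
    (singleFunctorCompHomologyFunctorIso C b).hom.app Y₂
  refine ⟨e₁.hom ≫ (singleFunctor C b).map ψ ≫ e₂.inv, ?_⟩
  have h1 : (homologyFunctor C b).map ((singleFunctor C b).map ψ) =
      (singleFunctorCompHomologyFunctorIso C b).hom.app Y₁ ≫ ψ ≫
        (singleFunctorCompHomologyFunctorIso C b).inv.app Y₂ := by
    have h2 := (singleFunctorCompHomologyFunctorIso C b).hom.naturality ψ
    have h3 : (homologyFunctor C b).map ((singleFunctor C b).map ψ) ≫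
        (singleFunctorCompHomologyFunctorIso C b).hom.app Y₂ =
        (singleFunctorCompHomologyFunctorIso C b).hom.app Y₁ ≫ ψ := h2
    rw [← Category.assoc, ← h3, Category.assoc, Iso.hom_inv_id_app]
    exact (Category.comp_id _).symm
  have h4 : (homologyFunctor C b).map e₂.hom ≫ (homologyFunctor C b).map e₂.inv = 𝟙 _ := by
    rw [← Functor.map_comp, Iso.hom_inv_id]
    exact CategoryTheory.Functor.map_id _ _
  have h5 : (homologyFunctor C b).map e₁.hom ≫ (homologyFunctor C b).map e₁.inv = 𝟙 _ := by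
    rw [← Functor.map_comp, Iso.hom_inv_id]
    exact CategoryTheory.Functor.map_id _ _
  rw [Functor.map_comp, Functor.map_comp, h1]
  simp only [ψ, Category.assoc]
  rw [Iso.hom_inv_id_app_assoc, Iso.hom_inv_id_app_assoc, h4, Category.comp_id, ← Category.assoc,
    h5, Category.id_comp]

/-- Maps into an object concentrated in one degree. -/
theorem lift_top (b : ℤ) (A B : DerivedCategory C) [A.IsLE b] [B.IsGE b] [B.IsLE b]
    (φ : (homologyFunctor C b).obj A ⟶ (homologyFunctor C b).obj B) :
    ∃ f : A ⟶ B, (homologyFunctor C b).map f = φ := by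
  have he : A ≅ Q.obj (Q.objPreimage A) := (Q.objObjPreimageIso A).symm
  set K : CochainComplex C ℤ := Q.objPreimage A with hK
  have hi : ∀ n : ℤ, b ≤ n → IsIso ((homologyFunctor C n).map (Q.map (K.πTruncGE b))) := by
    intro n hn
    have h4 : QuasiIsoAt (K.πTruncGE b) n := CochainComplex.quasiIsoAt_πTruncGE K b n hn
    have h5 : IsIso ((HomologicalComplex.homologyFunctor C (ComplexShape.up ℤ) n).map
        (K.πTruncGE b)) := (quasiIsoAt_iff_isIso_homologyMap _ _).1 h4
    exact (NatIso.isIso_map_iff (homologyFunctorFactors C n) (K.πTruncGE b)).2 h5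
  have hA : (Q.obj K).IsLE b := TStructure.t.isLE_of_iso he b
  have h1 : (Q.obj (K.truncGE b)).IsGE b := inferInstance
  have h2 : (Q.obj (K.truncGE b)).IsLE b := by
    rw [isLE_iff]
    intro i hbi
    have := hi i hbi.le
    exact (isZero_of_isLE (Q.obj K) b i hbi).of_iso
      (asIso ((homologyFunctor C i).map (Q.map (K.πTruncGE b)))).symm
  have h3 := hi b le_rfl
  obtain ⟨g, hg⟩ := lift_conc b (Q.obj (K.truncGE b)) B
    (inv ((homologyFunctor C b).map (Q.map (K.πTruncGE b))) ≫
      (homologyFunctor C b).map he.inv ≫ φ)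
  refine ⟨he.hom ≫ Q.map (K.πTruncGE b) ≫ g, ?_⟩
  rw [Functor.map_comp, Functor.map_comp, hg, IsIso.hom_inv_id_assoc, ← Category.assoc,
    ← Functor.map_comp, Iso.hom_inv_id]
  have h6 : (homologyFunctor C b).map (𝟙 A) = 𝟙 _ := CategoryTheory.Functor.map_id _ _
  rw [h6, Category.id_comp]

/-- The same in the homotopy category. -/
theorem lift_ho (b : ℤ) (A B : HomotopyCategory C (ComplexShape.up ℤ))
    (hs : Function.Surjective (Qh.map : (A ⟶ B) → (Qh.obj A ⟶ Qh.obj B)))
    (hA : ∀ n, b < n → IsZero ((HomotopyCategory.homologyFunctor C (ComplexShape.up ℤ) n).obj A))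
    (hB : ∀ n, n ≠ b → IsZero ((HomotopyCategory.homologyFunctor C (ComplexShape.up ℤ) n).obj B))
    (φ : (HomotopyCategory.homologyFunctor C (ComplexShape.up ℤ) b).obj A ⟶
      (HomotopyCategory.homologyFunctor C (ComplexShape.up ℤ) b).obj B) :
    ∃ f : A ⟶ B, (HomotopyCategory.homologyFunctor C (ComplexShape.up ℤ) b).map f = φ := by
  have hi : ∀ (n : ℤ) (X : HomotopyCategory C (ComplexShape.up ℤ)),
      IsZero ((HomotopyCategory.homologyFunctor C (ComplexShape.up ℤ) n).obj X) →
        IsZero ((homologyFunctor C n).obj (Qh.obj X)) := fun n X h =>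
    h.of_iso ((homologyFunctorFactorsh C n).app X)
  have h1 : (Qh.obj A).IsLE b := (isLE_iff (Qh.obj A) b).2 fun i h => hi i A (hA i h)
  have h2 : (Qh.obj B).IsLE b := (isLE_iff (Qh.obj B) b).2 fun i h => hi i B (hB i h.ne')
  have h3 : (Qh.obj B).IsGE b := (isGE_iff (Qh.obj B) b).2 fun i h => hi i B (hB i h.ne)
  obtain ⟨f, hf⟩ := lift_top b (Qh.obj A) (Qh.obj B)
    ((homologyFunctorFactorsh C b).hom.app A ≫ φ ≫ (homologyFunctorFactorsh C b).inv.app B)
  obtain ⟨g, rfl⟩ := hs f
  refine ⟨g, ?_⟩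
  have h4 := (homologyFunctorFactorsh C b).hom.naturality g
  have h5 : (homologyFunctor C b).map (Qh.map g) ≫ (homologyFunctorFactorsh C b).hom.app B =
      (homologyFunctorFactorsh C b).hom.app A ≫
        (HomotopyCategory.homologyFunctor C (ComplexShape.up ℤ) b).map g := h4
  rw [hf, Category.assoc, Category.assoc, Iso.inv_hom_id_app] at h5
  exact ((cancel_epi ((homologyFunctorFactorsh C b).hom.app A)).1 h5).symm.trans
    (Category.comp_id φ)

end

section

variable {k : Type u} [Ring k] {Γ : Type u} [Group Γ] {B : Type u} [MulAction Γ B] {P : Pre Γ B}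

attribute [local instance] HasDerivedCategory.standard

/-- `ev` on homotopy categories. -/
noncomputable abbrev evK : KK k P ⥤ HomotopyCategory (Fn k P) (ComplexShape.up ℤ) :=
  (Loc.ev (k := k) (P := P)).mapHomotopyCategory (ComplexShape.up ℤ)

/-- The complex of functors of a finite complex. -/
noncomputable abbrev evC (E : CochainComplex (Loc k P) ℤ) : CochainComplex (Fn k P) ℤ :=
  ((Loc.ev (k := k) (P := P)).mapHomologicalComplex (ComplexShape.up ℤ)).obj E

/-- A functor of an empty family is zero. -/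
theorem isZero_ev (A : Loc k P) [IsEmpty A.ι] : IsZero (Loc.ev.obj A) := by
  have : IsZero A := by
    rw [IsZero.iff_id_eq_zero]
    exact Loc.ext_basis fun i => isEmptyElim i
  exact Functor.map_isZero _ this

theorem kproj (hp : ∀ A : Loc k P, Projective (Loc.ev.obj A)) (E : CochainComplex (Loc k P) ℤ)
    (hE : FinC E) : (evC E).IsKProjective := by
  obtain ⟨a, b, hab⟩ := hE.bdd
  have h1 : (evC E).IsStrictlyLE b := by
    rw [CochainComplex.isStrictlyLE_iff]
    intro i hi
    have := hab i (Or.inr hi)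
    exact isZero_ev (E.X i)
  have h2 : ∀ n : ℤ, Projective ((evC E).X n) := fun n => hp (E.X n)
  exact CochainComplex.isKProjective_of_projective (evC E) b

theorem surj (hp : ∀ A : Loc k P, Projective (Loc.ev.obj A)) (X : KK k P) (hX : Per X)
    (L : HomotopyCategory (Fn k P) (ComplexShape.up ℤ)) :
    Function.Surjective (DerivedCategory.Qh.map : (evK.obj X ⟶ L) → _) := by
  intro f
  obtain ⟨E, hE, ⟨ρ⟩⟩ := hX
  have := kproj hp E hE
  obtain ⟨g, hg⟩ : ∃ g : evK.obj (qo E) ⟶ L,
      DerivedCategory.Qh.map g = DerivedCategory.Qh.map (evK.map ρ.r) ≫ f :=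
    (CochainComplex.IsKProjective.Qh_map_bijective (evC E) L).2
      (DerivedCategory.Qh.map (evK.map ρ.r) ≫ f)
  refine ⟨evK.map ρ.i ≫ g, ?_⟩
  have h1 : DerivedCategory.Qh.map (evK.map ρ.i ≫ g) =
      DerivedCategory.Qh.map (evK.map ρ.i) ≫ DerivedCategory.Qh.map g := Functor.map_comp _ _ _
  rw [h1, hg, ← Category.assoc, ← Functor.map_comp, ← Functor.map_comp, ρ.retract]
  have h2 : DerivedCategory.Qh.map (evK.map (𝟙 X)) = 𝟙 _ := by
    rw [CategoryTheory.Functor.map_id, CategoryTheory.Functor.map_id]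
  rw [h2, Category.id_comp]

end

/-- TOP. -/
theorem top (evp : EvpStatement.{u}) : TopStatement.{u} := by
  intro k _ Γ _ B _ P X R b hX hR hX' hR' φ
  obtain ⟨hf, hff, hp⟩ := evp k Γ B P
  let := HasDerivedCategory.standard (Fn k P)
  obtain ⟨f, hf'⟩ := lift_ho b (evK.obj X) (evK.obj R) (surj hp X hX _) hX' hR' φ
  obtain ⟨g, rfl⟩ := (evK (k := k) (P := P)).map_surjective f
  exact ⟨g, hf'⟩

end Pool.Agent.NegK.NT.H1
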