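import Pool.Agent.Lib.MP_28303a_al.TT.H76.BT
import Pool.Agent.Lib.MP_28303a_al.TT.Tor

/-! # The tree of `GL₂` of a discretely valued field -/

set_option autoImplicit false
set_option linter.unusedSectionVars false
set_option linter.unusedVariables false

namespace Pool.Agent.NegK.NT.H1

universe u

open WithZero
open Pool.Agent.NegK.TW
open Pool.Agent.NegK.TT.H76

section val

variable {K : Type u} [Field K] (v : Valuation K ℤᵐ⁰)

theorem act_mem_gl (g : Matrix.GeneralLinearGroup (Fin 2) K) (a : K) (h : ℤ) :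
    ∃ (a' : K) (h' : ℤ), Even (h' - (h + log (v g.1.det))) ∧
      (fun x y => (v g.1.det)⁻¹ *
        Qf v a h (x * g.1 0 0 + y * g.1 1 0) (x * g.1 0 1 + y * g.1 1 1)) = Qf v a' h' := by
  have hd0 : g.1.det ≠ 0 := (Matrix.GeneralLinearGroup.det g).ne_zero
  have hvd : v g.1.det ≠ 0 := (map_ne_zero v).2 hd0
  set d := g.1.det with hd
  have hdet : g.1 0 0 * g.1 1 1 - g.1 0 1 * g.1 1 0 = d := by
    rw [hd, Matrix.det_fin_two]
  obtain ⟨a', h', he, hf⟩ := form v ((g.1 0 0 - a * g.1 0 1) / d) ((g.1 1 0 - a * g.1 1 1) / d)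
    (g.1 0 1) (g.1 1 1) (by field_simp; linear_combination hdet) (h + log (v d))
  refine ⟨a', h', he, ?_⟩
  funext x y
  rw [← hf x y, Qf, mul_max]
  have e0 : (exp (log (v d)) : ℤᵐ⁰) = v d := exp_log hvd
  congr 1
  · rw [exp_add, e0]
    have e1 : x * g.1 0 0 + y * g.1 1 0 - a * (x * g.1 0 1 + y * g.1 1 1) =
        d * ((g.1 0 0 - a * g.1 0 1) / d * x + (g.1 1 0 - a * g.1 1 1) / d * y) := by
      field_simp
      ring
    rw [e1, map_mul, mul_pow, sq (v d)]
    calc _ = exp h * ((v d)⁻¹ * v d) * v d * v ((g.1 0 0 - a * g.1 0 1) / d * x +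
          (g.1 1 0 - a * g.1 1 1) / d * y) ^ 2 := by ac_rfl
      _ = _ := by rw [inv_mul_cancel₀ hvd, mul_one]
  · rw [neg_add, exp_add, exp_neg (log (v d)), e0]
    have e1 : x * g.1 0 1 + y * g.1 1 1 = g.1 0 1 * x + g.1 1 1 * y := by ring
    rw [e1]
    ac_rfl

/-- The action of `GL₂`. -/
noncomputable instance instActGL : MulAction (Matrix.GeneralLinearGroup (Fin 2) K) (Vx v) where
  smul g Q := ⟨fun x y => (v g.1.det)⁻¹ * Q.1 (x * g.1 0 0 + y * g.1 1 0)
      (x * g.1 0 1 + y * g.1 1 1), by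
    obtain ⟨Q, a, h, rfl⟩ := Q
    obtain ⟨a', h', -, he⟩ := act_mem_gl v g a h
    exact ⟨a', h', he⟩⟩
  one_smul Q := by
    apply Subtype.ext
    funext x y
    change (v (1 : Matrix (Fin 2) (Fin 2) K).det)⁻¹ * Q.1 _ _ = _
    simp
  mul_smul g g' Q := by
    apply Subtype.ext
    funext x y
    change (v (g.1 * g'.1).det)⁻¹ * Q.1 _ _ = (v g.1.det)⁻¹ * ((v g'.1.det)⁻¹ * Q.1 _ _)
    have e : ∀ i j, (g * g').1 i j = g.1 i 0 * g'.1 0 j + g.1 i 1 * g'.1 1 j := by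
      intro i j
      change (g.1 * g'.1) i j = _
      rw [Matrix.mul_apply, Fin.sum_univ_two]
    rw [e, e, e, e, Matrix.det_mul, map_mul, mul_inv, mul_assoc]
    rw [show x * (g.1 0 0 * g'.1 0 0 + g.1 0 1 * g'.1 1 0) +
        y * (g.1 1 0 * g'.1 0 0 + g.1 1 1 * g'.1 1 0) =
      (x * g.1 0 0 + y * g.1 1 0) * g'.1 0 0 + (x * g.1 0 1 + y * g.1 1 1) * g'.1 1 0 by ring,
      show x * (g.1 0 0 * g'.1 0 1 + g.1 0 1 * g'.1 1 1) +
        y * (g.1 1 0 * g'.1 0 1 + g.1 1 1 * g'.1 1 1) =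
      (x * g.1 0 0 + y * g.1 1 0) * g'.1 0 1 + (x * g.1 0 1 + y * g.1 1 1) * g'.1 1 1 by ring]

theorem gl_smul_val (g : Matrix.GeneralLinearGroup (Fin 2) K) (Q : Vx v) (x y : K) :
    (g • Q).1 x y = (v g.1.det)⁻¹ * Q.1 (x * g.1 0 0 + y * g.1 1 0)
      (x * g.1 0 1 + y * g.1 1 1) := rfl

theorem hgt_gl_smul (g : Matrix.GeneralLinearGroup (Fin 2) K) (Q : Vx v) :
    Even (hgt v (g • Q) - (hgt v Q + log (v g.1.det))) := by
  obtain ⟨a, h, rfl⟩ := exists_vx v Q
  obtain ⟨a', h', he, hf⟩ := act_mem_gl v g a h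
  have : g • vx v a h = vx v a' h' := Subtype.ext hf
  rw [this, hgt_vx, hgt_vx]
  exact he

theorem treeAct_gl (hv : ∀ x, Even (log (v x))) :
    TreeAct (Matrix.GeneralLinearGroup (Fin 2) K) (gr v) := by
  refine ⟨isTree v, ?_, ?_⟩
  · rintro g Q Q' ⟨hne, h1, h2⟩
    refine ⟨fun h => hne (smul_left_cancel g h), fun x y => ?_, fun x y => ?_⟩
    · rw [gl_smul_val, gl_smul_val, mul_left_comm]
      exact mul_le_mul' le_rfl (h1 _ _)
    · rw [gl_smul_val, gl_smul_val, mul_left_comm]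
      exact mul_le_mul' le_rfl (h2 _ _)
  · rintro g Q Q' hadj ⟨h1, -⟩
    have h3 := hgt_gl_smul v g Q
    have h5 := hv g.1.det
    rw [h1] at h3
    rcases (adj_iff v Q Q').1 hadj with h | h
    · rw [h, hgt_par] at h3
      obtain ⟨r, hr⟩ := h3
      obtain ⟨s, hs⟩ := h5
      omega
    · have h4 := hgt_par v Q'
      rw [← h] at h4
      obtain ⟨r, hr⟩ := h3
      obtain ⟨s, hs⟩ := h5
      omega

/-- An element with a fixed vertex. -/
theorem trace_le_gl (g : Matrix.GeneralLinearGroup (Fin 2) K) (Q : Vx v) (hg : g • Q = Q) :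
    v (g.1.trace) ^ 2 ≤ v g.1.det := by
  obtain ⟨a, h, rfl⟩ := exists_vx v Q
  have hd0 : g.1.det ≠ 0 := (Matrix.GeneralLinearGroup.det g).ne_zero
  have hvd : v g.1.det ≠ 0 := (map_ne_zero v).2 hd0
  have hdet : g.1 0 0 * g.1 1 1 - g.1 0 1 * g.1 1 0 = g.1.det := by
    rw [Matrix.det_fin_two]
  have e : ∀ x y, Qf v a h (x * g.1 0 0 + y * g.1 1 0) (x * g.1 0 1 + y * g.1 1 1) =
      v g.1.det * Qf v a h x y := by
    intro x y
    have := congrFun (congrFun (congrArg Subtype.val hg) x) y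
    have h1 : (v g.1.det)⁻¹ * Qf v a h (x * g.1 0 0 + y * g.1 1 0) (x * g.1 0 1 + y * g.1 1 1) =
      Qf v a h x y := this
    rw [← h1, mul_inv_cancel_left₀ hvd]
  -- the adjugate
  have e' : Qf v a h (g.1 1 1) (-g.1 0 1) = v g.1.det * Qf v a h 1 0 := by
    have h1 := e (g.1 1 1) (-g.1 0 1)
    have h2 : g.1 1 1 * g.1 0 0 + -g.1 0 1 * g.1 1 0 = g.1.det := by linear_combination hdet
    have h3 : g.1 1 1 * g.1 0 1 + -g.1 0 1 * g.1 1 1 = 0 := by ring
    rw [h2, h3] at h1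
    have h4 : Qf v a h g.1.det 0 = v g.1.det ^ 2 * Qf v a h 1 0 := by
      simp [Qf]
      ac_rfl
    rw [h4, sq, mul_assoc] at h1
    exact (mul_left_cancel₀ hvd h1).symm
  have e1 : Qf v a h (g.1 0 0) (g.1 0 1) = v g.1.det * Qf v a h 1 0 := by
    have := e 1 0
    simpa using this
  have h1 := Qf_add_le v a h (g.1 0 0) (g.1 0 1) (g.1 1 1) (-g.1 0 1)
  rw [e', e1, max_self, add_neg_cancel, Qf_one_zero] at h1
  have h2 : Qf v a h (g.1 0 0 + g.1 1 1) 0 = exp h * v (g.1.trace) ^ 2 := by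
    rw [Matrix.trace_fin_two]
    simp [Qf]
  rw [h2] at h1
  have h4 : (exp (-h) : ℤᵐ⁰) * (exp h * v (g.1.trace) ^ 2) ≤ exp (-h) * (v g.1.det * exp h) := by
    gcongr
  rw [← mul_assoc, ← exp_add, neg_add_cancel, exp_zero, one_mul] at h4
  refine h4.trans (le_of_eq ?_)
  rw [mul_left_comm, ← exp_add, neg_add_cancel, exp_zero, mul_one]

end val

/-- The square of a valuation. -/
def sqVal {K : Type u} [Field K] (v : Valuation K ℤᵐ⁰) : Valuation K ℤᵐ⁰ :=
  v.map (powMonoidWithZeroHom two_ne_zero) fun a b hab => by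
    simpa using pow_le_pow_left' hab 2

theorem sqVal_apply {K : Type u} [Field K] (v : Valuation K ℤᵐ⁰) (x : K) :
    sqVal v x = v x ^ 2 := rfl

theorem even_log_sqVal {K : Type u} [Field K] (v : Valuation K ℤᵐ⁰) (x : K) :
    Even (log (sqVal v x)) := by
  rw [sqVal_apply, log_pow]
  exact ⟨log (v x), by simp [two_mul]⟩

/-- `GL₂` of a field with a discrete valuation acts on a tree without inversions such that the
trace of an element with a fixed vertex and integral determinant is integral. -/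
theorem btGL (K : Type u) [Field K] (v : Valuation K ℤᵐ⁰) :
    ∃ (V : Type u) (_ : MulAction (Matrix.GeneralLinearGroup (Fin 2) K) V) (G : SimpleGraph V),
      TreeAct (Matrix.GeneralLinearGroup (Fin 2) K) G ∧
      ∀ (g : Matrix.GeneralLinearGroup (Fin 2) K) (x : V), g • x = x → v g.1.det ≤ 1 →
        v (g.1.trace) ≤ 1 := by
  refine ⟨Vx (sqVal v), instActGL _, gr _, treeAct_gl _ (even_log_sqVal v), fun g x h hd => ?_⟩
  have h1 := trace_le_gl _ g x h
  rw [sqVal_apply, sqVal_apply, ← pow_mul] at h1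
  have h2 : v g.1.trace ^ (2 * 2) ≤ 1 := h1.trans (pow_le_one' hd 2)
  exact (pow_le_one_iff (by norm_num)).1 h2

end Pool.Agent.NegK.NT.H1
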