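import Pool.Agent.Lib.MP_28303a_al.TT.H76.BT
import Pool.Agent.Lib.MP_28303a_al.TT.Tor

/-! # Lines, elements of finite order of `GL₂` -/

set_option autoImplicit false
set_option linter.unusedSectionVars false
set_option linter.unusedVariables false

namespace Pool.Agent.NegK.NT.H1

universe u

open Pool.Agent.NegK.TW

/-- A homomorphism to the integers gives an action on a line. -/
theorem line (Γ : Type u) [Group Γ] (τ : Γ →* Multiplicative ℤ) :
    ∃ (V : Type u) (_ : MulAction Γ V) (G : SimpleGraph V), TreeAct Γ G ∧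
      ∀ (g : Γ) (x : V), g • x = x → τ g = 1 := by
  let V : Type u := ULift.{u} ℤ
  let _ : MulAction Γ V :=
    { smul := fun g x => ⟨Multiplicative.toAdd (τ g) + x.down⟩
      one_smul := fun x => by
        change (⟨Multiplicative.toAdd (τ 1) + x.down⟩ : V) = x
        rw [map_one]
        exact ULift.ext _ _ (zero_add _)
      mul_smul := fun g h x => by
        change (⟨Multiplicative.toAdd (τ (g * h)) + x.down⟩ : V) =
          ⟨Multiplicative.toAdd (τ g) + (Multiplicative.toAdd (τ h) + x.down)⟩
        rw [map_mul, toAdd_mul, add_assoc] }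
  have hsm : ∀ (g : Γ) (x : V), (g • x).down = Multiplicative.toAdd (τ g) + x.down :=
    fun g x => rfl
  have hext : ∀ {x y : V}, x.down = y.down → x = y := fun {x y} h => ULift.ext _ _ h
  let par : V → V := fun x => ⟨x.down - 1⟩
  let G : SimpleGraph V :=
    { Adj := fun x y => y = par x ∨ x = par y
      symm := ⟨fun x y h => h.symm⟩
      loopless := ⟨fun x h => by
        have h1 : x.down = x.down - 1 := congrArg ULift.down (h.elim id id)
        omega⟩ }
  refine ⟨V, inferInstance, G, ⟨?_, ?_, ?_⟩, ?_⟩
  · have : Nonempty V := ⟨⟨0⟩⟩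
    have hit : ∀ (n : ℕ) (x : V), (par^[n] x).down = x.down - n := by
      intro n
      induction n with
      | zero => intro x; simp
      | succ n ih =>
        intro x
        rw [Function.iterate_succ_apply']
        change (par^[n] x).down - 1 = _
        rw [ih]
        push_cast
        ring
    refine TT.H76.isTree_of_parent G par (fun x => x.down) (fun x y => Iff.rfl) (fun x => rfl) ?_
    intro x y
    refine ⟨(x.down - min x.down y.down).toNat, (y.down - min x.down y.down).toNat, hext ?_⟩
    rw [hit, hit]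
    omega
  · intro g x y h
    rcases h with h | h
    · left
      apply hext
      rw [hsm, h]
      change Multiplicative.toAdd (τ g) + (x.down - 1) = (g • x).down - 1
      rw [hsm]
      ring
    · right
      apply hext
      rw [hsm, h]
      change Multiplicative.toAdd (τ g) + (y.down - 1) = (g • y).down - 1
      rw [hsm]
      ring
  · rintro g x y h ⟨h1, h2⟩
    have e1 := congrArg ULift.down h1
    have e2 := congrArg ULift.down h2
    rw [hsm] at e1 e2
    rcases h with h | h
    · have e3 : y.down = x.down - 1 := congrArg ULift.down h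
      omega
    · have e3 : x.down = y.down - 1 := congrArg ULift.down h
      omega
  · intro g x h
    have e1 := congrArg ULift.down h
    rw [hsm] at e1
    have e2 : Multiplicative.toAdd (τ g) = 0 := by omega
    exact Multiplicative.toAdd.injective e2

open Matrix in
theorem sq_eq_gl {K : Type u} [Field K] (g : Matrix (Fin 2) (Fin 2) K) :
    g * g = Matrix.trace g • g - g.det • (1 : Matrix (Fin 2) (Fin 2) K) := by
  rw [Matrix.det_fin_two]
  ext i j
  fin_cases i <;> fin_cases j <;>
    simp [Matrix.mul_apply, Fin.sum_univ_two, Matrix.trace, Matrix.diag] <;> ring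

/-- If the trace and the determinant of `g` are algebraic over the prime field then `g` has finite
order. -/
theorem tor_gl (K : Type u) [Field K] (p : ℕ) [Fact p.Prime] [Algebra (ZMod p) K]
    (g : Matrix.GeneralLinearGroup (Fin 2) K)
    (ht : IsAlgebraic (ZMod p) (Matrix.trace g.1)) (hd : IsAlgebraic (ZMod p) g.1.det) :
    ∃ n : ℕ, 0 < n ∧ g ^ n = 1 := by
  set t : K := Matrix.trace g.1 with ht'
  set d : K := g.1.det with hd'
  let E := Algebra.adjoin (ZMod p) ({t, d} : Set K)
  have hfg : (Subalgebra.toSubmodule E).FG := by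
    refine fg_adjoin_of_finite (Set.toFinite _) ?_
    rintro x (rfl | rfl)
    · exact ht.isIntegral
    · exact hd.isIntegral
  have : Module.Finite (ZMod p) E := Module.Finite.iff_fg.2 hfg
  have : Finite E := Module.finite_of_finite (ZMod p)
  have htE : t ∈ E := Algebra.subset_adjoin (Or.inl rfl)
  have hdE : d ∈ E := Algebra.subset_adjoin (Or.inr rfl)
  let f : E × E → Matrix (Fin 2) (Fin 2) K := fun ab =>
    (ab.1 : K) • (1 : Matrix (Fin 2) (Fin 2) K) + (ab.2 : K) • g.1
  have hpow : ∀ n : ℕ, ((g ^ n : Matrix.GeneralLinearGroup (Fin 2) K) :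
      Matrix (Fin 2) (Fin 2) K) ∈ Set.range f := by
    intro n
    induction n with
    | zero =>
      refine ⟨(1, 0), ?_⟩
      show ((1 : E) : K) • (1 : Matrix (Fin 2) (Fin 2) K) + ((0 : E) : K) • g.1 = _
      rw [pow_zero, OneMemClass.coe_one, ZeroMemClass.coe_zero, one_smul, zero_smul, add_zero]
      rfl
    | succ n ih =>
      obtain ⟨⟨a, b⟩, hab⟩ := ih
      refine ⟨(-b * ⟨d, hdE⟩, a + b * ⟨t, htE⟩), ?_⟩
      rw [pow_succ, Units.val_mul, ← hab]
      show (-b * d : K) • (1 : Matrix (Fin 2) (Fin 2) K) + (a + b * t : K) • g.1 =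
        ((a : K) • (1 : Matrix (Fin 2) (Fin 2) K) + (b : K) • g.1) * g.1
      rw [add_mul, smul_mul_assoc, smul_mul_assoc, one_mul, sq_eq_gl, smul_sub, smul_smul,
        smul_smul, ← ht', ← hd', add_smul, neg_mul, neg_smul]
      abel
  have hfin : (Set.range f).Finite := Set.finite_range f
  obtain ⟨m, n, hmn, he⟩ := Finite.exists_ne_map_eq_of_infinite
    (fun n : ℕ => (⟨_, hpow n⟩ : Set.range f))
  have he' : g ^ m = g ^ n := Units.ext (congrArg Subtype.val he)
  rcases lt_or_gt_of_ne hmn with hlt | hlt
  · refine ⟨n - m, by omega, ?_⟩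
    rw [pow_sub g hlt.le, ← he', mul_inv_cancel]
  · refine ⟨m - n, by omega, ?_⟩
    rw [pow_sub g hlt.le, he', mul_inv_cancel]

/-- Unipotent elements in rings of positive characteristic have finite order. -/
theorem unip {R : Type*} [Ring R] (N : ℕ) (hN : 0 < N) (hR : (N : R) = 0) (X : R)
    (hX : IsNilpotent X) : ∃ m : ℕ, 0 < m ∧ (1 + X) ^ m = 1 := by
  obtain ⟨M, hM⟩ := hX
  refine ⟨N * M.factorial, Nat.mul_pos hN M.factorial_pos, ?_⟩
  rw [add_comm, (Commute.one_right X).add_pow, Finset.sum_eq_single 0]
  · simp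
  · intro j _ hj
    rcases le_or_gt M j with h | h
    · obtain ⟨c, rfl⟩ := Nat.exists_eq_add_of_le h
      rw [pow_add, hM]
      simp
    · have h1 : N ∣ (N * M.factorial).choose j := by
        obtain ⟨j, rfl⟩ := Nat.exists_eq_succ_of_ne_zero hj
        have hpos : 0 < N * M.factorial := Nat.mul_pos hN M.factorial_pos
        obtain ⟨k, hk⟩ := Nat.exists_eq_succ_of_ne_zero hpos.ne'
        have h2 : (j + 1) ∣ M.factorial := Nat.dvd_factorial (Nat.succ_pos j) h.le
        obtain ⟨c, hc⟩ := h2
        have h3 := Nat.add_one_mul_choose_eq k j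
        have h4 : (j + 1) * (N * M.factorial).choose (j + 1) =
            (j + 1) * (N * (c * k.choose j)) := by
          rw [hk, mul_comm (j + 1), Nat.succ_eq_add_one, ← h3, ← Nat.succ_eq_add_one, ← hk, hc]
          ring
        rw [Nat.eq_of_mul_eq_mul_left (Nat.succ_pos j) h4]
        exact Dvd.intro _ rfl
      obtain ⟨c, hc⟩ := h1
      rw [hc, Nat.cast_mul, hR]
      simp
  · intro h
    simp at h

/-- Matrices with nilpotent entries are nilpotent. -/
theorem nilp_matrix {R : Type*} [CommRing R] (X : Matrix (Fin 2) (Fin 2) R)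
    (hX : ∀ i j, IsNilpotent (X i j)) : IsNilpotent X := by
  classical
  let I : Ideal R := Ideal.span (Set.range fun ij : Fin 2 × Fin 2 => X ij.1 ij.2)
  have hfg : I.FG := ⟨Finset.univ.image fun ij : Fin 2 × Fin 2 => X ij.1 ij.2, by
    simp [I]⟩
  have hle : I ≤ nilradical R := by
    rw [Ideal.span_le]
    rintro _ ⟨ij, rfl⟩
    exact hX _ _
  obtain ⟨M, hM⟩ := (Ideal.FG.isNilpotent_iff_le_nilradical hfg).2 hle
  have key : ∀ n i j, (X ^ n) i j ∈ I ^ n := by
    intro n
    induction n with
    | zero => intro i j; simp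
    | succ n ih =>
      intro i j
      rw [pow_succ, pow_succ, Matrix.mul_apply]
      exact Ideal.sum_mem _ fun k _ => Ideal.mul_mem_mul (ih i k) (Ideal.subset_span ⟨(k, j), rfl⟩)
  refine ⟨M, ?_⟩
  ext i j
  have := key M i j
  rw [hM] at this
  exact this

end Pool.Agent.NegK.NT.H1
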