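import Pool.Agent.Lib.MP_28303a_al.NT.H1.Vals
import Pool.Agent.Lib.MP_28303a_al.NT.H1.Gl
import Pool.Agent.Lib.MP_28303a_al.NT.H1.Line
import Pool.Agent.Lib.MP_28303a_al.NK.Defs

/-! # Torsionfree groups of `2 × 2` matrices over rings of positive characteristic act freely on
finite products of trees -/

set_option autoImplicit false
set_option linter.unusedSectionVars false
set_option linter.unusedVariables false

namespace Pool.Agent.NegK.NT.H1

universe u

open Pool.Agent.NegK.TW
open Matrix (GeneralLinearGroup)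

/-- A tree with an action of `Γ` without inversions. -/
structure TD (Γ : Type u) [Group Γ] where
  V : Type u
  act : MulAction Γ V
  G : SimpleGraph V
  tree : TreeAct Γ G

attribute [instance] TD.act

/-- `g` fixes a vertex of the tree. -/
def TD.Ell {Γ : Type u} [Group Γ] (T : TD Γ) (g : Γ) : Prop := ∃ x : T.V, g • x = x

/-- Restriction along a homomorphism. -/
def TD.comp {Γ Δ : Type u} [Group Γ] [Group Δ] (T : TD Δ) (φ : Γ →* Δ) : TD Γ where
  V := T.V
  act := MulAction.compHom T.V φ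
  G := T.G
  tree :=
    letI := MulAction.compHom T.V φ
    ⟨T.tree.tree, fun g v w h => T.tree.adj (φ g) v w h,
      fun g v w h => T.tree.noinv (φ g) v w h⟩

theorem TD.comp_ell {Γ Δ : Type u} [Group Γ] [Group Δ] (T : TD Δ) (φ : Γ →* Δ) (g : Γ) :
    (T.comp φ).Ell g ↔ T.Ell (φ g) := Iff.rfl

theorem exists_TD_gl (K : Type u) [Field K] (v : Valuation K (WithZero (Multiplicative ℤ))) :
    ∃ T : TD (GeneralLinearGroup (Fin 2) K), ∀ g, T.Ell g → v g.1.det ≤ 1 → v (g.1.trace) ≤ 1 := by
  obtain ⟨V, a, G, h1, h2⟩ := btGL K v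
  exact ⟨⟨V, a, G, h1⟩, fun g ⟨x, hx⟩ hd => h2 g x hx hd⟩

theorem exists_TD_line (Γ : Type u) [Group Γ] (τ : Γ →* Multiplicative ℤ) :
    ∃ T : TD Γ, ∀ g, T.Ell g → τ g = 1 := by
  obtain ⟨V, a, G, h1, h2⟩ := line Γ τ
  exact ⟨⟨V, a, G, h1⟩, fun g ⟨x, hx⟩ => h2 g x hx⟩

/-- Matrices over finitely generated domains of characteristic `p`. -/
theorem domain_case (p : ℕ) [Fact p.Prime] (D : Type u) [CommRing D] [IsDomain D]
    [Algebra (ZMod p) D] [Algebra.FiniteType (ZMod p) D] (Γ : Type u) [Group Γ]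
    (ψ : Γ →* GeneralLinearGroup (Fin 2) D) :
    ∃ (ι : Type) (_ : Finite ι) (T : ι → TD Γ), ∀ g, (∀ i, (T i).Ell g) →
      ∃ n, 0 < n ∧ ψ g ^ n = 1 := by
  let K := FractionRing D
  obtain ⟨n, v, hv⟩ := exists_vals p D K
  let ψK : Γ →* GeneralLinearGroup (Fin 2) K :=
    (GeneralLinearGroup.map (algebraMap D K)).comp ψ
  choose T hT using fun i => exists_TD_gl K (v i)
  let τ : Fin n → (Γ →* Multiplicative ℤ) := fun i =>
    (WithZero.unitsWithZeroEquiv (α := Multiplicative ℤ)).toMonoidHom.comp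
      ((Units.map (v i).toMonoidWithZeroHom.toMonoidHom).comp
        (GeneralLinearGroup.det.comp ψK))
  choose T' hT' using fun i => exists_TD_line Γ (τ i)
  refine ⟨Fin n ⊕ Fin n, inferInstance, Sum.elim (fun i => (T i).comp ψK) T', fun g hg => ?_⟩
  have h1 : ∀ i, (T i).Ell (ψK g) := fun i => hg (Sum.inl i)
  have h2 : ∀ i, τ i g = 1 := fun i => hT' i g (hg (Sum.inr i))
  have h3 : ∀ i, v i (ψK g).1.det = 1 := by
    intro i
    have h4 : Units.map (v i).toMonoidWithZeroHom.toMonoidHom (GeneralLinearGroup.det (ψK g)) = 1 :=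
      (WithZero.unitsWithZeroEquiv (α := Multiplicative ℤ)).injective ((h2 i).trans (map_one _).symm)
    exact congrArg Units.val h4
  have hdet : (ψK g).1.det = algebraMap D K (ψ g).1.det := by
    change (Matrix.map (ψ g).1 (algebraMap D K)).det = _
    rw [RingHom.map_det]
    rfl
  have htr : (ψK g).1.trace = algebraMap D K (ψ g).1.trace := by
    change (Matrix.map (ψ g).1 (algebraMap D K)).trace = _
    rw [Matrix.trace_fin_two, Matrix.trace_fin_two, map_add]
    rfl
  have h4 : IsAlgebraic (ZMod p) (ψ g).1.det := hv _ fun i => by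
    rw [← hdet, h3 i]
  have h5 : IsAlgebraic (ZMod p) (ψ g).1.trace := hv _ fun i => by
    rw [← htr]
    exact hT i _ (h1 i) (h3 i).le
  obtain ⟨m, hm, hm'⟩ := tor_gl K p (ψK g) (by rw [htr]; exact h5.algebraMap)
    (by rw [hdet]; exact h4.algebraMap)
  refine ⟨m, hm, ?_⟩
  have hinj : Function.Injective (GeneralLinearGroup.map (n := Fin 2) (algebraMap D K)) := by
    intro x y hxy
    refine Matrix.GeneralLinearGroup.ext fun i j => IsFractionRing.injective D K ?_
    have h6 := congrArg (fun z : GeneralLinearGroup (Fin 2) K => z.1 i j) hxy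
    exact h6
  apply hinj
  rw [map_pow, map_one]
  exact hm'

/-- Matrices over finitely generated rings of positive characteristic. -/
theorem ring_case (B : Type u) [CommRing B] [Algebra.FiniteType ℤ B] (N : ℕ) (hN : 0 < N)
    (hB : (N : B) = 0) (Γ : Type u) [Group Γ] (ψ : Γ →* GeneralLinearGroup (Fin 2) B) :
    ∃ (ι : Type) (_ : Finite ι) (T : ι → TD Γ), ∀ g, (∀ i, (T i).Ell g) →
      ∃ n, 0 < n ∧ ψ g ^ n = 1 := by
  classical
  have hnoeth : IsNoetherianRing B := Algebra.FiniteType.isNoetherianRing ℤ B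
  have hfin : (minimalPrimes B).Finite := minimalPrimes.finite_of_isNoetherianRing B
  have key : ∀ P : minimalPrimes B, ∃ (ι : Type) (_ : Finite ι) (T : ι → TD Γ),
      ∀ g, (∀ i, (T i).Ell g) → ∃ n, 0 < n ∧
        (GeneralLinearGroup.map (Ideal.Quotient.mk P.1) (ψ g)) ^ n = 1 := by
    intro P
    have hP : P.1.IsPrime := P.2.1.1
    let D := B ⧸ P.1
    obtain ⟨c, hc⟩ := CharP.exists D
    have hND : (N : D) = 0 := by
      have := congrArg (Ideal.Quotient.mk P.1) hB
      simpa using this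
    have hcN : c ∣ N := (CharP.cast_eq_zero_iff D c N).1 hND
    have hcp : c.Prime := by
      rcases CharP.char_is_prime_or_zero D c with h | h
      · exact h
      · rw [h] at hcN
        rw [zero_dvd_iff.1 hcN] at hN
        exact absurd hN (lt_irrefl _)
    have : Fact c.Prime := ⟨hcp⟩
    let _ : Algebra (ZMod c) D := ZMod.algebra D c
    have h1 : Algebra.FiniteType ℤ D := inferInstance
    have h2 : Algebra.FiniteType (ZMod c) D :=
      Algebra.FiniteType.of_restrictScalars_finiteType ℤ (ZMod c) D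
    exact domain_case c D Γ ((GeneralLinearGroup.map (Ideal.Quotient.mk P.1)).comp ψ)
  choose ι hι T hT using key
  have : Finite (minimalPrimes B) := hfin
  obtain ⟨M, ⟨e⟩⟩ := Finite.exists_equiv_fin (minimalPrimes B)
  refine ⟨Σ j : Fin M, ι (e.symm j), inferInstance, fun x => T (e.symm x.1) x.2, fun g hg => ?_⟩
  have h1 : ∀ P : minimalPrimes B, ∃ n, 0 < n ∧
      (GeneralLinearGroup.map (Ideal.Quotient.mk P.1) (ψ g)) ^ n = 1 := by
    intro P
    refine hT P g fun i => ?_
    have h2 : ∀ j : Fin M, ∀ i : ι (e.symm j), (T (e.symm j) i).Ell g := fun j i => hg ⟨j, i⟩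
    have h3 := h2 (e P)
    rw [e.symm_apply_apply] at h3
    exact h3 i
  choose n hn hn' using h1
  let _ := Fintype.ofFinite (minimalPrimes B)
  let m := ∏ P, n P
  have hm : 0 < m := Finset.prod_pos fun P _ => hn P
  have h2 : ∀ P : minimalPrimes B,
      GeneralLinearGroup.map (Ideal.Quotient.mk P.1) (ψ g ^ m) = 1 := by
    intro P
    obtain ⟨c, hc⟩ : n P ∣ m := Finset.dvd_prod_of_mem _ (Finset.mem_univ P)
    rw [map_pow, hc, pow_mul, hn' P, one_pow]
  have h3 : ∀ i j, IsNilpotent (((ψ g ^ m).1 - 1) i j) := by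
    intro i j
    have h4 : ((ψ g ^ m).1 - 1) i j ∈ (⊥ : Ideal B).radical := by
      rw [← Ideal.sInf_minimalPrimes, Submodule.mem_sInf]
      intro P hP
      have h5 := congrArg (fun z : GeneralLinearGroup (Fin 2) (B ⧸ P) => z.1 i j) (h2 ⟨P, hP⟩)
      have h6 : Ideal.Quotient.mk P ((ψ g ^ m).1 i j) = (1 : Matrix (Fin 2) (Fin 2) (B ⧸ P)) i j :=
        h5
      have h7 : (1 : Matrix (Fin 2) (Fin 2) (B ⧸ P)) i j =
          Ideal.Quotient.mk P ((1 : Matrix (Fin 2) (Fin 2) B) i j) := by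
        rw [Matrix.one_apply, Matrix.one_apply]
        split_ifs <;> simp
      rw [h7] at h6
      exact Ideal.Quotient.eq.1 h6
    exact mem_nilradical.1 h4
  obtain ⟨k, hk, hk'⟩ := unip N hN (R := Matrix (Fin 2) (Fin 2) B) (by
      rw [← map_natCast (algebraMap B (Matrix (Fin 2) (Fin 2) B)), hB, map_zero]) _
    (nilp_matrix _ h3)
  rw [add_sub_cancel] at hk'
  refine ⟨m * k, Nat.mul_pos hm hk, ?_⟩
  rw [pow_mul]
  exact Units.ext (by rw [Units.val_pow_eq_pow_val]; exact hk')

/-- **Torsionfree groups of `2 × 2` matrices over commutative rings of positive characteristic.** A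
finitely generated such group acts without inversions on finitely many trees such that no element
except `1` fixes a vertex of every tree. -/
theorem gl2_trees (A : Type u) [CommRing A] (N : ℕ) (hN : 0 < N) (hA : (N : A) = 0)
    (Γ : Type u) [Group Γ] [hfg : Group.FG Γ] (htf : TorsionFree Γ)
    (φ : Γ →* GeneralLinearGroup (Fin 2) A) (hφ : Function.Injective φ) :
    ∃ (ι : Type) (_ : Finite ι) (T : ι → TD Γ), ∀ g, (∀ i, (T i).Ell g) → g = 1 := by
  classical
  obtain ⟨S, hS⟩ := hfg.out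
  let E : Finset A := S.biUnion fun s => Finset.univ.image (fun x : Fin 2 × Fin 2 =>
    (φ s).1 x.1 x.2) ∪ Finset.univ.image (fun x : Fin 2 × Fin 2 => (φ s⁻¹).1 x.1 x.2)
  let B : Subalgebra ℤ A := Algebra.adjoin ℤ (E : Set A)
  have hB : Algebra.FiniteType ℤ B := (Subalgebra.fg_iff_finiteType B).1 ⟨E, rfl⟩
  have hmul : ∀ g h : Γ, (∀ i j, (φ g).1 i j ∈ B) → (∀ i j, (φ h).1 i j ∈ B) →
      ∀ i j, (φ (g * h)).1 i j ∈ B := by
    intro g h hg hh i j
    rw [map_mul, Units.val_mul, Matrix.mul_apply]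
    exact Subalgebra.sum_mem _ fun k _ => Subalgebra.mul_mem _ (hg _ _) (hh _ _)
  have hE : ∀ g : Γ, (∀ i j, (φ g).1 i j ∈ B) ∧ ∀ i j, (φ g⁻¹).1 i j ∈ B := by
    intro g
    have hg : g ∈ Subgroup.closure (S : Set Γ) := by rw [hS]; trivial
    induction hg using Subgroup.closure_induction with
    | mem s hs =>
      refine ⟨fun i j => Algebra.subset_adjoin ?_, fun i j => Algebra.subset_adjoin ?_⟩
      · simp only [E, Finset.coe_biUnion, Set.mem_iUnion]
        refine ⟨s, hs, ?_⟩
        rw [Finset.mem_coe, Finset.mem_union]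
        exact Or.inl (Finset.mem_image.2 ⟨(i, j), Finset.mem_univ _, rfl⟩)
      · simp only [E, Finset.coe_biUnion, Set.mem_iUnion]
        refine ⟨s, hs, ?_⟩
        rw [Finset.mem_coe, Finset.mem_union]
        exact Or.inr (Finset.mem_image.2 ⟨(i, j), Finset.mem_univ _, rfl⟩)
    | one =>
      have h1 : ∀ i j, (φ (1 : Γ)).1 i j ∈ B := by
        intro i j
        rw [map_one, Units.val_one, Matrix.one_apply]
        split_ifs
        · exact Subalgebra.one_mem _
        · exact Subalgebra.zero_mem _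
      exact ⟨h1, by rw [inv_one]; exact h1⟩
    | mul g h _ _ ih1 ih2 =>
      exact ⟨hmul g h ih1.1 ih2.1, by rw [mul_inv_rev]; exact hmul _ _ ih2.2 ih1.2⟩
    | inv g _ ih => exact ⟨ih.2, by rw [inv_inv]; exact ih.1⟩
  let χ : Γ →* Matrix (Fin 2) (Fin 2) B :=
    { toFun := fun g => Matrix.of fun i j => ⟨(φ g).1 i j, (hE g).1 i j⟩
      map_one' := by
        ext i j
        change (φ 1).1 i j = (((1 : Matrix (Fin 2) (Fin 2) B) i j : B) : A)
        rw [map_one, Units.val_one, Matrix.one_apply, Matrix.one_apply]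
        split_ifs <;> rfl
      map_mul' := fun g h => by
        ext i j
        rw [Matrix.mul_apply]
        change (φ (g * h)).1 i j = ((∑ k, _ : B) : A)
        rw [map_mul, Units.val_mul, Matrix.mul_apply, AddSubmonoidClass.coe_finsetSum]
        rfl }
  obtain ⟨ι, hι, T, hT⟩ := ring_case B N hN (Subtype.ext (by simpa using hA)) Γ χ.toHomUnits
  refine ⟨ι, hι, T, fun g hg => ?_⟩
  obtain ⟨n, hn, hn'⟩ := hT g hg
  refine htf g n hn (hφ ?_)
  rw [map_one]
  refine Matrix.GeneralLinearGroup.ext fun i j => ?_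
  rw [← map_pow] at hn'
  have h1 := congrArg (fun z : GeneralLinearGroup (Fin 2) B => ((z.1 i j : B) : A)) hn'
  have h2 : (φ (g ^ n)).1 i j = (((1 : Matrix (Fin 2) (Fin 2) B) i j : B) : A) := h1
  rw [h2]
  change _ = (1 : Matrix (Fin 2) (Fin 2) A) i j
  rw [Matrix.one_apply, Matrix.one_apply]
  split_ifs <;> rfl

end Pool.Agent.NegK.NT.H1
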