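import Mathlib

set_option autoImplicit false
set_option linter.unusedSectionVars false
set_option linter.unusedVariables false

namespace Pool.Agent.NegK.NT.H1

open IsDedekindDomain

/-- Finite separable extensions of the field of fractions of a discrete valuation ring. -/
theorem sep_vals (O L K : Type*) [CommRing O] [IsDomain O] [IsDiscreteValuationRing O]
    [Field L] [Field K] [Algebra O L] [IsFractionRing O L] [Algebra L K] [Algebra O K]
    [IsScalarTower O L K] [FiniteDimensional L K] [Algebra.IsSeparable L K] :
    ∃ (n : ℕ) (w : Fin n → Valuation K (WithZero (Multiplicative ℤ))),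
      ∀ a : K, (∀ j, w j a ≤ 1) → IsIntegral O a := by
  classical
  let B := integralClosure O K
  have hD : IsDedekindDomain B := integralClosure.isDedekindDomain O L K
  have hF : IsFractionRing B K := IsIntegralClosure.isFractionRing_of_finite_extension O L K B
  have hI : Algebra.IsIntegral O B := IsIntegralClosure.isIntegral_algebra O K
  have hinjK : Function.Injective (algebraMap O K) := by
    rw [IsScalarTower.algebraMap_eq O L K]
    exact (algebraMap L K).injective.comp (IsFractionRing.injective O L)
  have hinj : Function.Injective (algebraMap O B) := by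
    intro x y hxy
    refine hinjK ?_
    rw [IsScalarTower.algebraMap_apply O B K, IsScalarTower.algebraMap_apply O B K, hxy]
  have hT : Module.IsTorsionFree O B := by
    rw [Module.isTorsionFree_iff_algebraMap_injective]
    exact hinj
  have hfin : Finite (HeightOneSpectrum B) := by
    have hfs := IsDedekindDomain.primesOver_finite (IsLocalRing.maximalIdeal O) B
    have : Finite ((IsLocalRing.maximalIdeal O).primesOver B) := hfs
    refine Finite.of_injective (β := (IsLocalRing.maximalIdeal O).primesOver B)
      (fun v => ⟨v.asIdeal, v.isPrime, ⟨?_⟩⟩) fun v v' h => ?_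
    · have := v.isMaximal
      have h1 : (v.asIdeal.under O).IsMaximal :=
        Ideal.isMaximal_comap_of_isIntegral_of_isMaximal v.asIdeal
      exact (IsLocalRing.eq_maximalIdeal h1).symm
    · exact HeightOneSpectrum.ext (congrArg Subtype.val h)
  obtain ⟨n, ⟨e⟩⟩ := Finite.exists_equiv_fin (HeightOneSpectrum B)
  refine ⟨n, fun j => (e.symm j).valuation K, fun a ha => ?_⟩
  obtain ⟨b, hb⟩ := HeightOneSpectrum.mem_integers_of_valuation_le_one (R := B) K a
    fun v => by simpa using ha (e v)
  rw [← hb]
  exact b.2

/-- Finite extensions of the field of fractions of a discrete valuation ring. -/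
theorem fin_vals (p : ℕ) (O L K : Type*) [CommRing O] [IsDomain O] [IsDiscreteValuationRing O]
    [Field L] [Field K] [ExpChar L p] [Algebra O L] [IsFractionRing O L] [Algebra L K] [Algebra O K]
    [IsScalarTower O L K] [FiniteDimensional L K] :
    ∃ (n e : ℕ) (w : Fin n → Valuation K (WithZero (Multiplicative ℤ))),
      ∀ a : K, (∀ j, w j a ≤ 1) → IsIntegral O (a ^ p ^ e) := by
  classical
  let M := separableClosure L K
  have : IsScalarTower O L M := inferInstance
  obtain ⟨n, w, hw⟩ := sep_vals O L M
  have : IsPurelyInseparable M K := inferInstance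
  have : FiniteDimensional M K := inferInstance
  have : ExpChar M p := expChar_of_injective_algebraMap (algebraMap L M).injective p
  have : IsPurelyInseparable.HasExponent M K := inferInstance
  let e := IsPurelyInseparable.exponent M K
  let φ : K →+* M := IsPurelyInseparable.iterateFrobenius M K p (le_refl e)
  refine ⟨n, e, fun j => (w j).comap φ, fun a ha => ?_⟩
  have h1 : IsIntegral O (φ a) := hw _ ha
  have h2 : algebraMap M K (φ a) = a ^ p ^ e :=
    IsPurelyInseparable.algebraMap_iterateFrobenius M p (le_refl e) a
  have : IsScalarTower O M K := IsScalarTower.of_algebraMap_eq fun x => rfl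
  rw [← h2]
  exact h1.map (IsScalarTower.toAlgHom O M K)


open MonoidWithZeroHom in
theorem dvr_of_nontrivial {L : Type*} [Field L] (v : Valuation L (WithZero (Multiplicative ℤ)))
    [v.IsNontrivial] : IsDiscreteValuationRing v.valuationSubring := by
  have h1 : IsCyclic (valueGroup (.ofClass v)) := inferInstance
  have h2 : Nontrivial (valueGroup (.ofClass v)) := inferInstance
  infer_instance

/-- The degree in the `i`-th variable as a valuation. -/
noncomputable def degVal {F : Type*} [Field F] {s : ℕ} (i : Fin s) :
    Valuation (MvPolynomial (Fin s) F) (WithZero (Multiplicative ℤ)) := by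
  classical
  exact
  { toFun := fun f => if f = 0 then 0 else WithZero.exp (MvPolynomial.degreeOf i f : ℤ)
    map_zero' := by simp
    map_one' := by
      rw [if_neg one_ne_zero]
      simp [MvPolynomial.degreeOf_one]
    map_mul' := fun f g => by
      by_cases hf : f = 0
      · simp [hf]
      by_cases hg : g = 0
      · simp [hg]
      simp only [hf, hg, mul_ne_zero hf hg, if_false]
      rw [MvPolynomial.degreeOf_mul_eq hf hg, Nat.cast_add, WithZero.exp_add]
    map_add_le_max' := fun f g => by
      by_cases hf : f = 0
      · simp [hf]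
      by_cases hg : g = 0
      · simp [hg]
      by_cases hfg : f + g = 0
      · simp [hfg]
      simp only [hf, hg, hfg, if_false]
      have := MvPolynomial.degreeOf_add_le i f g
      rcases le_max_iff.1 this with h | h
      · exact le_max_of_le_left (WithZero.exp_le_exp.2 (by exact_mod_cast h))
      · exact le_max_of_le_right (WithZero.exp_le_exp.2 (by exact_mod_cast h)) }

theorem degVal_apply {F : Type*} [Field F] {s : ℕ} (i : Fin s) {f : MvPolynomial (Fin s) F}
    (hf : f ≠ 0) : degVal i f = WithZero.exp (MvPolynomial.degreeOf i f : ℤ) := by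
  classical
  exact if_neg hf

theorem degreeOf_of_le {F : Type*} [Field F] {s : ℕ} (i : Fin s) {f : MvPolynomial (Fin s) F}
    (hf : degVal i f ≤ 1) : MvPolynomial.degreeOf i f = 0 := by
  by_cases h : f = 0
  · simp [h]
  rw [degVal_apply i h, ← WithZero.exp_zero, WithZero.exp_le_exp] at hf
  exact_mod_cast le_antisymm (by exact_mod_cast hf) (Nat.zero_le (MvPolynomial.degreeOf i f))

theorem eq_C_of_degVal {F : Type*} [Field F] {s : ℕ} {f : MvPolynomial (Fin s) F}
    (hf : ∀ i, degVal i f ≤ 1) : ∃ c, f = MvPolynomial.C c := by
  refine ⟨_, MvPolynomial.vars_eq_empty_iff_eq_C.1 ?_⟩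
  rw [Finset.eq_empty_iff_forall_notMem]
  intro i hi
  exact MvPolynomial.mem_vars_iff_degreeOf_ne_zero.1 hi (degreeOf_of_le i (hf i))

/-- The degree in the `i`-th variable on the field of fractions. -/
noncomputable def degValL (F : Type*) [Field F] {s : ℕ} (L : Type*) [Field L]
    [Algebra (MvPolynomial (Fin s) F) L] [IsFractionRing (MvPolynomial (Fin s) F) L] (i : Fin s) :
    Valuation L (WithZero (Multiplicative ℤ)) :=
  (degVal (F := F) i).extendToLocalization (S := nonZeroDivisors (MvPolynomial (Fin s) F))
    (fun f hf h => by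
      have h0 := nonZeroDivisors.ne_zero hf
      have h1 : degVal i f = 0 := h
      rw [degVal_apply i h0] at h1
      exact WithZero.exp_ne_zero h1) L

theorem degValL_apply (F : Type*) [Field F] {s : ℕ} (L : Type*) [Field L]
    [Algebra (MvPolynomial (Fin s) F) L] [IsFractionRing (MvPolynomial (Fin s) F) L] (i : Fin s)
    (f : MvPolynomial (Fin s) F) : degValL F L i (algebraMap _ L f) = degVal i f :=
  Valuation.extendToLocalization_apply_map_apply _ _ _ _

instance degValL_nontrivial (F : Type*) [Field F] {s : ℕ} (L : Type*) [Field L]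
    [Algebra (MvPolynomial (Fin s) F) L] [IsFractionRing (MvPolynomial (Fin s) F) L] (i : Fin s) :
    (degValL F L i).IsNontrivial := by
  rw [Valuation.IsNontrivial_iff_exists_one_lt]
  refine ⟨algebraMap (MvPolynomial (Fin s) F) L (MvPolynomial.X i), ?_⟩
  rw [degValL_apply, degVal_apply _ (MvPolynomial.X_ne_zero i), ← WithZero.exp_zero,
    WithZero.exp_lt_exp, MvPolynomial.degreeOf_X]
  simp

/-- Finite integral extensions of polynomial rings. -/
theorem vals_core (F : Type*) [Field F] (p : ℕ) [ExpChar F p] (s : ℕ) (A : Type*) [CommRing A]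
    [IsDomain A] [Algebra (MvPolynomial (Fin s) F) A] [Module.Finite (MvPolynomial (Fin s) F) A]
    [FaithfulSMul (MvPolynomial (Fin s) F) A] (K : Type*) [Field K] [Algebra A K]
    [IsFractionRing A K] :
    ∃ (n : ℕ) (w : Fin n → Valuation K (WithZero (Multiplicative ℤ))),
      ∀ a : A, (∀ j, w j (algebraMap A K a) ≤ 1) →
        ∃ q : Polynomial F, q ≠ 0 ∧
          Polynomial.eval₂ ((algebraMap (MvPolynomial (Fin s) F) A).comp MvPolynomial.C) a q = 0 := by
  classical
  let S := MvPolynomial (Fin s) F
  let L := FractionRing S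
  let _ : Algebra S K := ((algebraMap A K).comp (algebraMap S A)).toAlgebra
  have : IsScalarTower S A K := IsScalarTower.of_algebraMap_eq fun x => rfl
  have : FaithfulSMul S K := by
    rw [faithfulSMul_iff_algebraMap_injective]
    exact (IsFractionRing.injective A K).comp (FaithfulSMul.algebraMap_injective S A)
  let _ : Algebra L K := FractionRing.liftAlgebra S K
  have : IsScalarTower S L K := FractionRing.isScalarTower_liftAlgebra S K
  have : Algebra.IsIntegral S A := inferInstance
  have : Algebra.IsAlgebraic S A := inferInstance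
  have : FiniteDimensional L K := Module.Finite.of_isLocalization S A (nonZeroDivisors S)
  have hchar : ExpChar L p := expChar_of_injective_ringHom
    (f := (algebraMap S L).comp (MvPolynomial.C : F →+* S))
    ((IsFractionRing.injective S L).comp (MvPolynomial.C_injective (Fin s) F)) p
  have key : ∀ i : Fin s, ∃ (n e : ℕ) (w : Fin n → Valuation K (WithZero (Multiplicative ℤ))),
      ∀ a : K, (∀ j, w j a ≤ 1) → IsIntegral (degValL F L i).valuationSubring (a ^ p ^ e) := by
    intro i
    have := dvr_of_nontrivial (degValL F L i)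
    exact fin_vals p (degValL F L i).valuationSubring L K
  choose n e w hw using key
  obtain ⟨N, ⟨eqv⟩⟩ := Finite.exists_equiv_fin (Σ i : Fin s, Fin (n i))
  refine ⟨N, fun j => w (eqv.symm j).1 (eqv.symm j).2, fun a ha => ?_⟩
  have ha' : ∀ i j, w i j (algebraMap A K a) ≤ 1 := fun i j => by
    have := ha (eqv ⟨i, j⟩)
    beta_reduce at this
    rw [Equiv.symm_apply_apply] at this
    exact this
  let E : ℕ := Finset.univ.sup e
  have h1 : ∀ i : Fin s, IsIntegral (degValL F L i).valuationSubring (algebraMap A K (a ^ p ^ E)) := by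
    intro i
    have h2 := (hw i _ (ha' i)).pow (p ^ (E - e i))
    rw [← pow_mul, ← pow_add, Nat.add_sub_cancel' (Finset.le_sup (Finset.mem_univ i))] at h2
    rwa [map_pow]
  let β : A := a ^ p ^ E
  have hβ : IsIntegral S β := Algebra.IsIntegral.isIntegral β
  have h3 : minpoly L (algebraMap A K β) = (minpoly S β).map (algebraMap S L) :=
    minpoly.isIntegrallyClosed_eq_field_fractions L K hβ
  have h4 : ∀ i : Fin s, minpoly L (algebraMap A K β) =
      (minpoly (degValL F L i).valuationSubring (algebraMap A K β)).map
        (algebraMap (degValL F L i).valuationSubring L) := fun i =>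
    minpoly.isIntegrallyClosed_eq_field_fractions' L (h1 i)
  have h5 : ∀ k, ∃ c, (minpoly S β).coeff k = MvPolynomial.C c := by
    intro k
    refine eq_C_of_degVal fun i => ?_
    rw [← degValL_apply F L i]
    have h6 := congrArg (fun q => Polynomial.coeff q k) (h3.symm.trans (h4 i))
    simp only [Polynomial.coeff_map] at h6
    rw [h6]
    exact ((minpoly (degValL F L i).valuationSubring (algebraMap A K β)).coeff k).2
  have h6 : minpoly S β ∈ Polynomial.lifts (MvPolynomial.C : F →+* S) := by
    rw [Polynomial.lifts_iff_coeff_lifts]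
    intro k
    obtain ⟨c, hc⟩ := h5 k
    exact ⟨c, hc.symm⟩
  obtain ⟨Q, hQ⟩ := (Polynomial.mem_lifts _).1 h6
  have hQ0 : Q ≠ 0 := by
    rintro rfl
    rw [Polynomial.map_zero] at hQ
    exact (minpoly.monic hβ).ne_zero hQ.symm
  have hp : 0 < p ^ E := expChar_pow_pos F p E
  refine ⟨Polynomial.expand F (p ^ E) Q, (Polynomial.expand_ne_zero hp).2 hQ0, ?_⟩
  let _ : Algebra F A := ((algebraMap S A).comp (MvPolynomial.C : F →+* S)).toAlgebra
  have h7 : Polynomial.aeval β Q = 0 := by
    have h8 := minpoly.aeval S β
    rw [← hQ, Polynomial.aeval_def, Polynomial.eval₂_map] at h8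
    exact h8
  have h9 := Polynomial.expand_aeval (p ^ E) Q a
  exact h9.trans h7

/-- VAL. Finitely generated domains over the prime field. -/
theorem exists_vals (p : ℕ) [Fact p.Prime] (A : Type*) [CommRing A] [IsDomain A]
    [Algebra (ZMod p) A] [Algebra.FiniteType (ZMod p) A] (K : Type*) [Field K] [Algebra A K]
    [IsFractionRing A K] :
    ∃ (n : ℕ) (v : Fin n → Valuation K (WithZero (Multiplicative ℤ))),
      ∀ a : A, (∀ i, v i (algebraMap A K a) ≤ 1) → IsAlgebraic (ZMod p) a := by
  obtain ⟨s, g, hg, hfin⟩ := exists_finite_inj_algHom_of_fg (ZMod p) A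
  let _ : Algebra (MvPolynomial (Fin s) (ZMod p)) A := g.toRingHom.toAlgebra
  have hF : Module.Finite (MvPolynomial (Fin s) (ZMod p)) A := hfin
  have hfaith : FaithfulSMul (MvPolynomial (Fin s) (ZMod p)) A :=
    (faithfulSMul_iff_algebraMap_injective _ _).2 hg
  have : ExpChar (ZMod p) p := ExpChar.prime Fact.out
  obtain ⟨n, w, hw⟩ := vals_core (ZMod p) p s A K
  refine ⟨n, w, fun a ha => ?_⟩
  obtain ⟨q, hq0, hq⟩ := hw a ha
  refine ⟨q, hq0, ?_⟩
  rw [Polynomial.aeval_def]
  have e1 : algebraMap (ZMod p) A =
      (algebraMap (MvPolynomial (Fin s) (ZMod p)) A).comp MvPolynomial.C := by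
    refine RingHom.ext fun c => ?_
    exact (g.commutes c).symm
  rw [e1]
  exact hq

end Pool.Agent.NegK.NT.H1
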